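import Pool.Agent.Work.MP_47f387_co.Bd.B02

/-!
# MP_47f387_co: the assembled main theorem
-/

namespace Pool.Agent.Work.MP_47f387_co

/-- Both parts of the main theorem. -/
theorem assembled : MainThm :=
  mainThm (claimFlex claimPure)
    (claimTwo claimPure (claimOne (claimAB claimA (claimB claimPeel))) claimColor)
    claimPure claimColor

end Pool.Agent.Work.MP_47f387_co
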