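import Mathlib

/-!
# MP_47f387_co (equitable colouring): partitions into independent sets with prescribed sizes
-/

namespace Pool.Agent.Work.MP_47f387_co

open Finset

/-- `W` spans no edge of `G`. -/
def Ind {V : Type} (G : SimpleGraph V) (W : Finset V) : Prop :=
  ∀ v ∈ W, ∀ w ∈ W, ¬ G.Adj v w

/-- `PL G L U`: the set `U` is a disjoint union of independent sets whose sizes are the
entries of the list `L`. -/
inductive PL {V : Type} [DecidableEq V] (G : SimpleGraph V) : List ℕ → Finset V → Prop
  | nil : PL G [] ∅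
  | cons {L : List ℕ} {U W : Finset V} (hd : Disjoint W U) (hW : Ind G W) (hU : PL G L U) :
      PL G (W.card :: L) (W ∪ U)

/-- `U` is a disjoint union of independent sets of size `S`. -/
def Til {V : Type} [DecidableEq V] (G : SimpleGraph V) (S : ℕ) (U : Finset V) : Prop :=
  ∃ h : ℕ, PL G (List.replicate h S) U

/-- `G` has a proper colouring with `k` colours whose classes differ in size by at most one. -/
def Equi {V : Type} [Fintype V] [DecidableEq V] (G : SimpleGraph V) (k : ℕ) : Prop :=
  ∃ C : G.Coloring (Fin k), ∀ i j : Fin k,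
    (Finset.univ.filter (fun v => C v = i)).card ≤
      (Finset.univ.filter (fun v => C v = j)).card + 1

section API

variable {V : Type} {G : SimpleGraph V}

lemma Ind.mono {W W' : Finset V} (h : Ind G W) (hs : W' ⊆ W) : Ind G W' :=
  fun v hv w hw => h v (hs hv) w (hs hw)

lemma ind_empty : Ind G (∅ : Finset V) := by
  intro v hv; simp at hv

lemma ind_singleton (v : V) : Ind G ({v} : Finset V) := by
  intro a ha b hb
  rw [mem_singleton] at ha hb
  subst ha; subst hb
  exact G.loopless.irrefl _

variable [DecidableEq V]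

lemma PL.cons' {L : List ℕ} {U W : Finset V} {a : ℕ} (hd : Disjoint W U) (hW : Ind G W)
    (ha : W.card = a) (hU : PL G L U) : PL G (a :: L) (W ∪ U) := by
  subst ha; exact PL.cons hd hW hU

lemma PL.single {W : Finset V} {a : ℕ} (hW : Ind G W) (ha : W.card = a) : PL G [a] W := by
  have := PL.cons' (G := G) (L := []) (disjoint_empty_right W) hW ha PL.nil
  simpa using this

lemma PL.append {L₁ L₂ : List ℕ} {U₁ U₂ : Finset V} (h₁ : PL G L₁ U₁) (h₂ : PL G L₂ U₂)
    (hd : Disjoint U₁ U₂) : PL G (L₁ ++ L₂) (U₁ ∪ U₂) := by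
  induction h₁ with
  | nil => simpa using h₂
  | @cons L U W hd' hW hU ih =>
    rw [disjoint_union_left] at hd
    rw [List.cons_append, union_assoc]
    exact PL.cons (disjoint_union_right.2 ⟨hd', hd.1⟩) hW (ih hd.2)

lemma PL.sum {L : List ℕ} {U : Finset V} (h : PL G L U) : L.sum = U.card := by
  induction h with
  | nil => simp
  | cons hd hW hU ih => rw [List.sum_cons, ih, card_union_of_disjoint hd]

lemma PL.of_ind {W : Finset V} {q S : ℕ} (hW : Ind G W) (hc : W.card = q * S) :
    PL G (List.replicate q S) W := by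
  induction q generalizing W with
  | zero =>
    have : W = ∅ := by rw [← card_eq_zero]; simpa using hc
    subst this; exact PL.nil
  | succ q ih =>
    have h1 : S ≤ W.card := by rw [hc, Nat.succ_mul]; exact Nat.le_add_left _ _
    obtain ⟨W', hW', hc'⟩ := exists_subset_card_eq h1
    have h2 : (W \ W').card = q * S := by
      rw [card_sdiff_of_subset hW', hc, hc', Nat.succ_mul]; omega
    have := PL.cons' (G := G) (disjoint_sdiff) (hW.mono hW') hc' (ih (hW.mono sdiff_subset) h2)
    rwa [union_sdiff_of_subset hW', ← List.replicate_succ] at this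

lemma PL.singles (U : Finset V) : PL G (List.replicate U.card 1) U := by
  induction U using Finset.induction_on with
  | empty => exact PL.nil
  | insert v U hv ih =>
    rw [card_insert_of_notMem hv, List.replicate_succ]
    have := PL.cons' (G := G) (a := 1) (disjoint_singleton_left.2 hv) (ind_singleton v)
      (card_singleton v) ih
    rwa [← insert_eq] at this

lemma Til.empty (S : ℕ) : Til G S (∅ : Finset V) := ⟨0, PL.nil⟩

lemma Til.union {S : ℕ} {U₁ U₂ : Finset V} (h₁ : Til G S U₁) (h₂ : Til G S U₂)
    (hd : Disjoint U₁ U₂) : Til G S (U₁ ∪ U₂) := by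
  obtain ⟨a, ha⟩ := h₁
  obtain ⟨b, hb⟩ := h₂
  refine ⟨a + b, ?_⟩
  rw [List.replicate_add]
  exact ha.append hb hd

lemma Til.dvd {S : ℕ} {U : Finset V} (h : Til G S U) : S ∣ U.card := by
  obtain ⟨a, ha⟩ := h
  rw [← ha.sum, List.sum_replicate]
  exact Dvd.intro_left _ rfl

lemma Til.of_ind {S : ℕ} {W : Finset V} (hW : Ind G W) (hc : S ∣ W.card) : Til G S W := by
  obtain ⟨q, hq⟩ := hc
  exact ⟨q, PL.of_ind hW (by rw [hq, mul_comm])⟩

lemma Til.one {S : ℕ} {W : Finset V} (hW : Ind G W) (hc : W.card = S) : Til G S W :=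
  ⟨1, PL.single hW hc⟩

/-- If `U` is tiled by sets of size `S ≥ 1` then the number of tiles is `|U| / S`. -/
lemma Til.PL_card {S : ℕ} (hS : 1 ≤ S) {U : Finset V} {k : ℕ} (h : Til G S U)
    (hk : U.card = k * S) : PL G (List.replicate k S) U := by
  obtain ⟨a, ha⟩ := h
  have h1 := ha.sum
  rw [List.sum_replicate, hk, smul_eq_mul] at h1
  rw [← Nat.eq_of_mul_eq_mul_right (by omega) h1]
  exact ha

/-- A disjoint union of independent sets with sizes divisible by `S`. -/
lemma Til.biUnion {ι : Type} [DecidableEq ι] {S : ℕ} (s : Finset ι) (B : ι → Finset V)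
    (hd : ∀ i ∈ s, ∀ j ∈ s, i ≠ j → Disjoint (B i) (B j)) (h : ∀ i ∈ s, Til G S (B i)) :
    Til G S (s.biUnion B) := by
  induction s using Finset.induction_on with
  | empty => exact Til.empty S
  | insert i s hi ih =>
    rw [biUnion_insert]
    apply Til.union (h i (mem_insert_self i s))
      (ih (fun a ha b hb => hd a (mem_insert_of_mem ha) b (mem_insert_of_mem hb))
        (fun a ha => h a (mem_insert_of_mem ha)))
    rw [disjoint_biUnion_right]
    intro j hj
    exact hd i (mem_insert_self i s) j (mem_insert_of_mem hj) (by rintro rfl; exact hi hj)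

end API

end Pool.Agent.Work.MP_47f387_co
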